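import Pool.Agent.W586.GZ.Stm

/-! Project GZ (helper586), part LOWB: the lower estimate, contradiction. -/

set_option autoImplicit false
open Filter Topology

namespace Pool.Agent.W465.GZ.LowB

open Pool.Agent.W586.GZ

/-- the even coordinates -/
abbrev EE : Set ℕ := {n | Even n}

theorem cut_mem (A : Set ℕ) (x : ℕ → ℝ) {n : ℕ} (h : n ∈ A) : cut A x n = x n := by
  unfold cut; exact Set.indicator_of_mem h _

theorem cut_notMem (A : Set ℕ) (x : ℕ → ℝ) {n : ℕ} (h : n ∉ A) : cut A x n = 0 := by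
  unfold cut; exact Set.indicator_of_notMem h _

theorem NB_zero (S : Set (ℕ →₀ ℚ)) {c : ℝ} (hc : 0 ≤ c) {x : ℕ → ℝ} (hx : ∀ n, x n = 0) :
    NB S x c := by
  intro f _
  have : x = fun _ => 0 := funext hx
  rw [this, ev_zero_right]; exact hc

/-- even vectors -/
theorem NB_even (P : Par) {x : ℕ → ℝ} {b : ℝ} (h : NB (WW P) x b) : NB (WX P) (cut EE x) b := by
  rw [NB_WX]
  refine ⟨(h.cut (WW_idl P) EE).cut (WW_idl P) EE, fun n hn => ?_⟩
  rw [cut_notMem EE x (by simpa using hn)]
  simpa using h.nonneg (WW_idl P)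

theorem CB_s (P : Par) (hB : S_BLK) {t : ℕ → ℕ → ℝ} {C : ℝ} (ht : CB (WX P) t C) (κ : ℕ → ℕ)
    (s : ℕ → ℕ → ℝ) (hs1 : ∀ i j, Even i → Even j → i ≠ j → s i j = blk κ t i j)
    (hs2 : ∀ i, s i i = 0) (hs3 : ∀ i j, ¬ Even i → s i j = 0)
    (hs4 : ∀ i j, ¬ Even j → s i j = 0) :
    CB (WW P) s (2 * C) := by
  have c1 := hB (WX P) (WX_idl P) t C κ ht
  have c2 := hB (WX P) (WX_idl P) t C id ht
  refine ⟨by linarith [ht.1], fun F x b hx => ?_⟩
  have hxe := NB_even P hx
  have d1 := c1.2 F _ _ hxe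
  have d2 := (c2.2 F _ _ hxe).smul (-1)
  have d3 := ((NB_WX P _ _).1 (d1.add (WX_idl P) d2)).1
  have e : mv s F x = cut {n | Even n} (fun n => mv (blk κ t) F (cut EE x) n +
      -1 * mv (blk id t) F (cut EE x) n) := by
    funext i
    by_cases hi : Even i
    · rw [cut_mem _ _ (show i ∈ {n | Even n} from hi)]
      by_cases hF : i ∈ F
      · rw [mv_apply_of_mem _ _ _ _ hF, mv_apply_of_mem _ _ _ _ hF, mv_apply_of_mem _ _ _ _ hF,
          Finset.mul_sum, ← Finset.sum_add_distrib]
        refine Finset.sum_congr rfl fun j _ => ?_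
        by_cases hj : Even j
        · rw [cut_mem EE x (show j ∈ EE from hj)]
          by_cases hij : i = j
          · subst hij
            rw [hs2]
            simp [blk]
          · rw [hs1 i j hi hj hij]
            have : blk id t i j = 0 := by unfold blk; rw [if_neg (by simpa using hij)]
            rw [this]; ring
        · rw [hs4 i j hj, cut_notMem EE x (show j ∉ EE from hj)]
          ring
      · rw [mv_apply_of_notMem _ _ _ _ hF, mv_apply_of_notMem _ _ _ _ hF,
          mv_apply_of_notMem _ _ _ _ hF]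
        ring
    · rw [cut_notMem _ _ (show i ∉ {n | Even n} from hi)]
      by_cases hF : i ∈ F
      · rw [mv_apply_of_mem _ _ _ _ hF]
        exact Finset.sum_eq_zero fun j _ => by rw [hs3 i j hi, zero_mul]
      · exact mv_apply_of_notMem _ _ _ _ hF
  rw [e]
  refine d3.mono (le_of_eq ?_)
  rw [abs_neg, abs_one]; ring

theorem main : S_BLK → S_K → S_L1 → S_LOWB := by
  intro hB hK hL P t C δ c0 F w c hC hδ hc0 hdiag hc hF hw hw1 hmv hlow
  classical
  have hC0 : 0 ≤ C := hC.1
  -- labels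
  have hck : ∀ k, k ≤ c k := fun k => hc.id_le k
  set κ : ℕ → ℕ := fun n => Nat.findGreatest (fun k => c k ≤ n) n with hκd
  have hκ : ∀ k n, n ∈ F k → κ n = k := by
    intro k n hn
    obtain ⟨h1, h2⟩ := hF k n hn
    have hkn : k ≤ n := (hck k).trans h1
    refine le_antisymm ?_ (Nat.le_findGreatest hkn h1)
    by_contra hlt
    push Not at hlt
    have h3 : c (κ n) ≤ n := Nat.findGreatest_spec (P := fun k => c k ≤ n) hkn h1
    have h4 : c (k + 1) ≤ c (κ n) := hc.monotone hlt
    omega
  -- normalisation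
  have hex : ∀ k, ∃ ν : ℝ, c0 ≤ ν ∧ NB (WW P) (cut EE (w k)) ν ∧
      ∃ f ∈ WW P, ν / 2 < ev f (cut EE (w k)) := by
    intro k
    obtain ⟨f, hf, hfe⟩ := hlow k
    have hne : ∃ i, cut EE (w k) i ≠ 0 := by
      by_contra hcon
      push Not at hcon
      have : cut EE (w k) = fun _ => 0 := funext hcon
      have h2 : ev f (cut {n | Even n} (w k)) = 0 := by
        show ev f (cut EE (w k)) = 0
        rw [this, ev_zero_right]
      linarith
    obtain ⟨ν, hν, hnb, g, hg, hge⟩ := exists_norm (WW_idl P) (F k) (fun i hi => by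
      by_cases hE : i ∈ EE
      · rw [cut_mem EE _ hE] at hi; exact hw k i hi
      · rw [cut_notMem EE _ hE] at hi; exact absurd rfl hi) hne
    exact ⟨ν, hfe.trans (hnb f hf), hnb, g, hg, hge⟩
  choose ν hν0 hνn hνf using hex
  have hνp : ∀ k, 0 < ν k := fun k => hc0.trans_le (hν0 k)
  set z : ℕ → ℕ → ℝ := fun k n => (ν k)⁻¹ * cut EE (w k) n with hz
  have hzne : ∀ k n, z k n ≠ 0 → n ∈ F k := by
    intro k n hn
    refine hw k n ?_
    intro h0
    apply hn
    simp only [hz]
    by_cases hE : n ∈ EE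
    · rw [cut_mem EE _ hE, h0, mul_zero]
    · rw [cut_notMem EE _ hE, mul_zero]
  have hBS : BS P z := by
    refine ⟨?_, ?_, ?_, ?_⟩
    · intro i l hil p q hp hq
      have h1 := (hF i p (hzne i p hp)).2
      have h2 := (hF l q (hzne l q hq)).1
      have h3 : c (i + 1) ≤ c l := hc.monotone hil
      omega
    · intro i
      exact ⟨c (i + 1), fun n hn => (hF i n (hzne i n hn)).2⟩
    · intro i
      have := (hνn i).smul (ν i)⁻¹
      refine this.mono (le_of_eq ?_)
      rw [abs_of_pos (inv_pos.2 (hνp i)), inv_mul_cancel₀ (hνp i).ne']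
    · intro i
      obtain ⟨f, hf, hfe⟩ := hνf i
      refine ⟨f, hf, ?_⟩
      show 1 / 2 ≤ ev f (fun n => (ν i)⁻¹ * cut EE (w i) n)
      rw [ev_smul_right, abs_of_pos (inv_pos.2 (hνp i))]
      have : (ν i)⁻¹ * (ν i / 2) ≤ (ν i)⁻¹ * ev f (cut EE (w i)) :=
        mul_le_mul_of_nonneg_left hfe.le (inv_pos.2 (hνp i)).le
      have e : (ν i)⁻¹ * (ν i / 2) = 1 / 2 := by
        have := (hνp i).ne'
        field_simp
      linarith
  -- the matrix s
  set s : ℕ → ℕ → ℝ := fun i j => if Even i ∧ Even j ∧ i ≠ j then blk κ t i j else 0 with hs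
  have hCs : CB (WW P) s (2 * C) := by
    refine CB_s P hB hC κ s ?_ ?_ ?_ ?_
    · intro i j hi hj hij
      simp only [hs]; rw [if_pos ⟨hi, hj, hij⟩]
    · intro i; simp only [hs]; rw [if_neg (by tauto)]
    · intro i j hi; simp only [hs]; rw [if_neg (by tauto)]
    · intro i j hj; simp only [hs]; rw [if_neg (by tauto)]
  obtain ⟨N0, hN0⟩ := hK P s (2 * C) (fun i => by simp only [hs]; rw [if_neg (by tauto)]) hCs
    (δ / 8) (by positivity)
  set ε : ℝ := δ * c0 / (4 * (2 + C)) with hε
  have hεp : 0 < ε := by positivity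
  obtain ⟨a, K, ha1, ha2, hAvg, f, hf, hfy⟩ := hL P (max 1 N0) ε (le_max_left _ _) hεp z hBS
  set y : ℕ → ℝ := fun n => ∑ k ∈ Finset.range K, a k * z k n with hy
  set Ft : Finset ℕ := (Finset.range K).biUnion F with hFt
  set b : ℕ → ℝ := fun k => a k * (ν k)⁻¹ with hb
  have hb0 : ∀ k, 0 ≤ b k := fun k => mul_nonneg (ha2 k).1 (inv_pos.2 (hνp k)).le
  have hb1 : ∀ k, b k ≤ ε / c0 := by
    intro k
    rw [div_eq_mul_inv]
    exact mul_le_mul (ha2 k).2 (inv_anti₀ hc0 (hν0 k)) (inv_pos.2 (hνp k)).le hεp.le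
  set W' : ℕ → ℝ := fun n => ∑ k ∈ Finset.range K, b k * w k n with hW'
  have hWk : ∀ k, k < K → ∀ n ∈ F k, W' n = b k * w k n := by
    intro k hk n hn
    simp only [hW']
    refine Finset.sum_eq_single_of_mem k (Finset.mem_range.2 hk) fun l _ hlk => ?_
    have : w l n = 0 := by
      by_contra hne
      exact hlk ((hκ l n (hw l n hne)).symm.trans (hκ k n hn))
    rw [this, mul_zero]
  have hW0 : ∀ n, n ∉ Ft → W' n = 0 := by
    intro n hn
    simp only [hW']
    refine Finset.sum_eq_zero fun k hk => ?_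
    have : w k n = 0 := by
      by_contra hne
      exact hn (Finset.mem_biUnion.2 ⟨k, hk, hw k n hne⟩)
    rw [this, mul_zero]
  have hyW : y = cut EE W' := by
    funext n
    by_cases hE : n ∈ EE
    · rw [cut_mem EE _ hE]
      simp only [hy, hz, hW', hb]
      refine Finset.sum_congr rfl fun k _ => ?_
      rw [cut_mem EE _ hE]; ring
    · rw [cut_notMem EE _ hE]
      simp only [hy, hz]
      refine Finset.sum_eq_zero fun k _ => ?_
      rw [cut_notMem EE _ hE]; ring
  have hyF : ∀ n, y n ≠ 0 → n ∈ Ft := by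
    intro n hn
    by_contra h
    apply hn
    rw [hyW]
    by_cases hE : n ∈ EE
    · rw [cut_mem EE _ hE, hW0 n h]
    · rw [cut_notMem EE _ hE]
  have hWb : ∀ n, |W' n| ≤ ε / c0 := by
    intro n
    by_cases hn : n ∈ Ft
    · obtain ⟨k, hk, hnk⟩ := Finset.mem_biUnion.1 hn
      rw [hWk k (Finset.mem_range.1 hk) n hnk, abs_mul, abs_of_nonneg (hb0 k)]
      have h1 := (hw1 k).coord (WX_idl P) n
      calc b k * |w k n| ≤ (ε / c0) * 1 :=
            mul_le_mul (hb1 k) h1 (abs_nonneg _) (by positivity)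
        _ = ε / c0 := mul_one _
    · rw [hW0 n hn, abs_zero]; positivity
  -- the odd part
  set u : ℕ → ℝ := cut EEᶜ W' with hu
  have hNu : NB (WX P) u (ε / c0) := by
    rw [NB_WX]
    refine ⟨NB_zero _ (by positivity) fun n => ?_, fun n hn => ?_⟩
    · by_cases hE : n ∈ EE
      · rw [cut_mem _ _ (show n ∈ {n | Even n} from hE), hu,
          cut_notMem _ _ (show n ∉ EEᶜ from fun h => h hE)]
      · exact cut_notMem _ _ hE
    · rw [hu, cut_mem _ _ (show n ∈ EEᶜ from by simpa using hn)]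
      exact hWb n
  have g3 := (hB (WX P) (WX_idl P) t C κ hC).2 Ft u _ hNu
  -- the image
  have hg1 : mv (blk κ t) Ft W' = fun n => ∑ k ∈ Finset.range K, b k * mv t (F k) (w k) n := by
    funext i
    by_cases hi : i ∈ Ft
    · obtain ⟨k, hk, hik⟩ := Finset.mem_biUnion.1 hi
      rw [mv_apply_of_mem _ _ _ _ hi]
      have r1 : ∑ k' ∈ Finset.range K, b k' * mv t (F k') (w k') i = b k * mv t (F k) (w k) i := by
        refine Finset.sum_eq_single_of_mem k hk fun l _ hlk => ?_
        rw [mv_apply_of_notMem _ _ _ _ (fun h => hlk ((hκ l i h).symm.trans (hκ k i hik))),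
          mul_zero]
      rw [r1, mv_apply_of_mem _ _ _ _ hik]
      have r2 : ∑ j ∈ Ft, blk κ t i j * W' j = ∑ j ∈ F k, blk κ t i j * W' j := by
        symm
        refine Finset.sum_subset (fun j hj => Finset.mem_biUnion.2 ⟨k, hk, hj⟩) ?_
        intro j hj hjk
        obtain ⟨l, hl, hjl⟩ := Finset.mem_biUnion.1 hj
        have : κ i ≠ κ j := by
          rw [hκ k i hik, hκ l j hjl]
          rintro rfl
          exact hjk hjl
        unfold blk
        rw [if_neg this, zero_mul]
      rw [r2, Finset.mul_sum]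
      refine Finset.sum_congr rfl fun j hj => ?_
      have : blk κ t i j = t i j := by
        unfold blk
        rw [if_pos ((hκ k i hik).trans (hκ k j hj).symm)]
      rw [this, hWk k (Finset.mem_range.1 hk) j hj]
      ring
    · rw [mv_apply_of_notMem _ _ _ _ hi]
      symm
      refine Finset.sum_eq_zero fun k hk => ?_
      rw [mv_apply_of_notMem _ _ _ _ (fun h => hi (Finset.mem_biUnion.2 ⟨k, hk, h⟩)), mul_zero]
  have g1 : NB (WX P) (mv (blk κ t) Ft W') (2 * (ε / c0)) := by
    rw [hg1]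
    have h1 := NB.sum (WX_idl P) (Finset.range K) (x := fun k n => b k * mv t (F k) (w k) n)
      (c := fun k => |b k| * (1 / 2 ^ k)) (fun k _ => (hmv k).smul (b k))
    refine h1.mono ?_
    have h2 : ∑ k ∈ Finset.range K, |b k| * (1 / 2 ^ k) ≤
        ∑ k ∈ Finset.range K, (ε / c0) * (1 / 2 : ℝ) ^ k := by
      refine Finset.sum_le_sum fun k _ => ?_
      rw [abs_of_nonneg (hb0 k), one_div, one_div, inv_pow]
      exact mul_le_mul_of_nonneg_right (hb1 k) (by positivity)
    refine h2.trans ?_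
    rw [← Finset.mul_sum, mul_comm 2]
    refine mul_le_mul_of_nonneg_left ?_ (by positivity)
    have h3 := geom_sum_eq (show (1 / 2 : ℝ) ≠ 1 by norm_num) K
    rw [h3]
    have h4 : (0 : ℝ) < (1 / 2) ^ K := by positivity
    have : ((1 / 2 : ℝ) ^ K - 1) / (1 / 2 - 1) = 2 * (1 - (1 / 2) ^ K) := by
      norm_num; ring
    rw [this]; linarith
  have g2 : NB (WW P) (mv s Ft y) (δ / 8) := hN0 _ (le_max_right _ _) y Ft hAvg hyF
  -- assembly
  have k1 := ((NB_WX P _ _).1 g1).1
  have k2 := (g2.cut (WW_idl P) EE).smul (-1)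
  have k3 := (((NB_WX P _ _).1 g3).1).smul (-1)
  have k4 := k1.add (WW_idl P) (k2.add (WW_idl P) k3)
  have k5 : NB (WW P) (fun n => δ * y n) _ := k4.le (WW_idl P) (fun i => by
    by_cases hy0 : y i = 0
    · rw [hy0, mul_zero, abs_zero]; exact abs_nonneg _
    have hiF := hyF i hy0
    have hiE : i ∈ EE := by
      by_contra h
      apply hy0
      rw [hyW, cut_notMem EE _ h]
    have hsum : t i i * y i = mv (blk κ t) Ft W' i + (-1 * mv s Ft y i +
        -1 * mv (blk κ t) Ft u i) := by
      clear_value y W' u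
      rw [mv_apply_of_mem _ _ _ _ hiF, mv_apply_of_mem _ _ _ _ hiF, mv_apply_of_mem _ _ _ _ hiF,
        Finset.mul_sum, Finset.mul_sum, ← Finset.sum_add_distrib, ← Finset.sum_add_distrib]
      symm
      have h1 : ∀ j ∈ Ft, blk κ t i j * W' j + (-1 * (s i j * y j) + -1 * (blk κ t i j * u j)) =
          if j = i then t i i * y i else 0 := by
        intro j _
        by_cases hE : j ∈ EE
        · have e1 : u j = 0 := by rw [hu]; exact cut_notMem _ _ (fun h => h hE)
          have e2 : y j = W' j := by rw [hyW]; exact cut_mem EE _ hE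
          by_cases hji : j = i
          · subst hji
            rw [if_pos rfl, e1, e2]
            have : s j j = 0 := by simp only [hs]; rw [if_neg (by tauto)]
            have h5 : blk κ t j j = t j j := by unfold blk; rw [if_pos rfl]
            rw [this, h5]; ring
          · rw [if_neg hji, e1, e2]
            have : s i j = blk κ t i j := by
              simp only [hs]; rw [if_pos ⟨hiE, hE, Ne.symm hji⟩]
            rw [this]; ring
        · have e1 : u j = W' j := by rw [hu]; exact cut_mem _ _ hE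
          have e2 : y j = 0 := by rw [hyW]; exact cut_notMem EE _ hE
          have hji : j ≠ i := by rintro rfl; exact hE hiE
          rw [if_neg hji, e1, e2]; ring
      rw [Finset.sum_congr rfl h1, Finset.sum_ite_eq' Ft i, if_pos hiF]
    rw [cut_mem _ _ (show i ∈ {n | Even n} from hiE), cut_mem EE _ hiE,
      cut_mem _ _ (show i ∈ {n | Even n} from hiE), ← hsum, abs_mul, abs_mul, abs_of_pos hδ]
    exact mul_le_mul_of_nonneg_right (hdiag i) (abs_nonneg _))
  have k6 := k5 f hf
  rw [ev_smul_right, abs_of_pos hδ, abs_neg, abs_one, one_mul, one_mul] at k6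
  have k7 : δ ≤ δ * ev f y := by nlinarith
  have k8 : (2 + C) * (ε / c0) = δ / 4 := by
    rw [hε]; field_simp
  nlinarith

end Pool.Agent.W465.GZ.LowB
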